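import Pool.Agent.Helper53.CTR.Goals
import Pool.Agent.Helper44.TE.Chain

/-!
# PROJECT CTR (MP_8b4d68_lc), packet RUN (helper66): a run is a chain of nine runs
-/

set_option autoImplicit false

namespace Pool.Agent.Helper66.CTR

open Pool.Agent.Helper53.CTR
open Pool.Agent.Helper1.TE (Gad Ch GoalCHS)
open Pool.Agent.Helper44.TE (ch_zero_iff ch_congr_iff)

theorem ch_mul (hCHS : GoalCHS) {S : Type} (step : ℕ → ℕ → ℕ → S → Option S) (K t : ℕ) (s : S)
    (m : ℕ) (s' : S) : Ch step K (m * t) s s' ↔ ∃ f : ℕ → S, f 0 = s ∧ f m = s' ∧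
      ∀ d < m, Ch (fun τ => step (d * t + τ)) K t (f d) (f (d + 1)) := by
  induction m generalizing s' with
  | zero =>
    rw [Nat.zero_mul, ch_zero_iff]
    constructor
    · rintro rfl
      exact ⟨fun _ => s', rfl, rfl, fun d hd => absurd hd (Nat.not_lt_zero d)⟩
    · rintro ⟨f, h1, h2, -⟩
      rw [← h1, ← h2]
  | succ m ih =>
    rw [Nat.succ_mul, hCHS]
    constructor
    · rintro ⟨z, h1, h2⟩
      obtain ⟨f, f0, fm, hf⟩ := (ih z).1 h1
      refine ⟨fun d => if d ≤ m then f d else s', ?_, ?_, ?_⟩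
      · simpa using f0
      · simp
      · intro d hd
        rcases Nat.lt_or_ge d m with hd' | hd'
        · have h3 : d ≤ m := by omega
          have h4 : d + 1 ≤ m := by omega
          simp only [h3, h4, if_true]
          exact hf d hd'
        · obtain rfl : d = m := by omega
          have h4 : ¬ d + 1 ≤ d := by omega
          simp only [h4, if_false, le_refl, if_true]
          rw [fm]
          exact h2
    · rintro ⟨f, f0, fm, hf⟩
      refine ⟨f m, (ih (f m)).2 ⟨f, f0, rfl, fun d hd => hf d (by omega)⟩, ?_⟩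
      have h1 := hf m (Nat.lt_succ_self m)
      rw [fm] at h1
      exact h1

theorem gRUN : GoalRUN := by
  intro hCHS Z g tst r q c x n s s'
  unfold Run
  rw [pow_succ, Nat.mul_comm (9 ^ n) 9, ch_mul hCHS]
  have hpos : 0 < 9 ^ n := by positivity
  have key : ∀ d (u v : (ℕ → Z) × ℕ), Ch (fun τ => op g tst r q c x (n + 1) (d * 9 ^ n + τ)) g.K
      (9 ^ n) u v ↔ Ch (op g tst r q c (sub q x n d) n) g.K (9 ^ n) u v := by
    intro d u v
    refine ch_congr_iff fun τ hτ a y w => ?_
    have h1 : (d * 9 ^ n + τ) / 9 ^ n = d := by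
      rw [Nat.add_comm, Nat.add_mul_div_right _ _ hpos, Nat.div_eq_of_lt hτ, Nat.zero_add]
    have h2 : (d * 9 ^ n + τ) % 9 ^ n = τ := by
      rw [Nat.add_comm, Nat.add_mul_mod_self_right, Nat.mod_eq_of_lt hτ]
    rw [op, h1, h2]
  constructor
  · rintro ⟨f, f0, f9, hf⟩
    exact ⟨f, f0, f9, fun d hd => (key d _ _).1 (hf d hd)⟩
  · rintro ⟨f, f0, f9, hf⟩
    exact ⟨f, f0, f9, fun d hd => (key d _ _).2 (hf d hd)⟩

end Pool.Agent.Helper66.CTR
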